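import Pool.Agent.H98.S4.Targets

/-!
s4_modules LO (MP_eb32d7_co): a linear order in which all edges of a linear forest join consecutive
elements.
-/

set_option autoImplicit false

namespace Pool.Agent.H42.S4

open Pool.Agent.H98.S4
open Finset

/-- inserting an element does not separate a pair, unless it is at the place of the insertion -/
lemma ins {W : Type} {a r : List W} (x p q : W) {L1 L2 : List W}
    (h : a ++ r = L1 ++ p :: q :: L2)
    (hm : ∀ a' r' : List W, a = a' ++ [p] → r = q :: r' → False) :
    ∃ M1 M2 : List W, a ++ x :: r = M1 ++ p :: q :: M2 := by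
  rcases List.append_eq_append_iff.1 h with ⟨c, h1, h2⟩ | ⟨c, h1, h2⟩
  · exact ⟨a ++ x :: c, L2, by rw [h2]; simp⟩
  · rcases c with _ | ⟨p', c⟩
    · simp only [List.nil_append] at h2
      refine ⟨a ++ [x], L2, ?_⟩
      rw [← h2]
      simp
    · simp only [List.cons_append, List.cons.injEq] at h2
      obtain ⟨rfl, h2⟩ := h2
      rcases c with _ | ⟨q', c⟩
      · simp only [List.nil_append] at h2
        exact (hm L1 L2 h1 h2.symm).elim
      · simp only [List.cons_append, List.cons.injEq] at h2
        obtain ⟨rfl, h2⟩ := h2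
        refine ⟨L1, c ++ x :: r, ?_⟩
        rw [h1]
        simp

theorem main {W : Type} [DecidableEq W] (F : SimpleGraph W) (hd : Deg2 F) (hA : Acyc F) :
    ∀ (n : ℕ) (X : Finset W), X.card = n → ∃ L : List W, L.Nodup ∧ (∀ w, w ∈ L ↔ w ∈ X) ∧
      ∀ u ∈ X, ∀ v ∈ X, F.Adj u v →
        ∃ L1 L2 : List W, L = L1 ++ u :: v :: L2 ∨ L = L1 ++ v :: u :: L2 := by
  intro n
  induction n with
  | zero =>
    intro X hX
    rw [Finset.card_eq_zero] at hX
    subst hX
    exact ⟨[], List.nodup_nil, by simp, by simp⟩
  | succ n ih =>
    intro X hX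
    have hne : X.Nonempty := by
      rw [← Finset.card_pos, hX]
      exact Nat.succ_pos n
    obtain ⟨x, hx, hx1⟩ := hA X hne
    obtain ⟨L, hL, hm, hadj⟩ := ih (X.erase x) (by rw [Finset.card_erase_of_mem hx, hX]; rfl)
    have hxL : x ∉ L := by
      rw [hm]
      simp
    -- pairs that do not contain `x`
    have hpair : ∀ u ∈ X, ∀ v ∈ X, F.Adj u v → u ≠ x → v ≠ x →
        ∃ L1 L2 : List W, L = L1 ++ u :: v :: L2 ∨ L = L1 ++ v :: u :: L2 :=
      fun u hu v hv h h1 h2 => hadj u (Finset.mem_erase.2 ⟨h1, hu⟩) v (Finset.mem_erase.2 ⟨h2, hv⟩) h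
    -- a general insertion
    have key : ∀ a r : List W, L = a ++ r →
        (∀ p q : W, F.Adj p q → ∀ a' r' : List W, a = a' ++ [p] → r = q :: r' → False) →
        (∀ v ∈ X, F.Adj x v → ∃ L1 L2 : List W, a ++ x :: r = L1 ++ x :: v :: L2 ∨
          a ++ x :: r = L1 ++ v :: x :: L2) →
        ∃ L : List W, L.Nodup ∧ (∀ w, w ∈ L ↔ w ∈ X) ∧
          ∀ u ∈ X, ∀ v ∈ X, F.Adj u v →
            ∃ L1 L2 : List W, L = L1 ++ u :: v :: L2 ∨ L = L1 ++ v :: u :: L2 := by
      intro a r har hsep hxv
      refine ⟨a ++ x :: r, ?_, ?_, ?_⟩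
      · rw [List.nodup_middle, List.nodup_cons]
        rw [har] at hL hxL
        exact ⟨hxL, hL⟩
      · intro w
        have h1 : w ∈ a ++ x :: r ↔ w = x ∨ w ∈ L := by
          rw [har]
          simp only [List.mem_append, List.mem_cons]
          tauto
        rw [h1, hm, Finset.mem_erase]
        constructor
        · rintro (rfl | h)
          · exact hx
          · exact h.2
        · intro h
          by_cases hw : w = x
          · exact Or.inl hw
          · exact Or.inr ⟨hw, h⟩
      · intro u hu v hv huv
        by_cases hux : u = x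
        · subst hux
          exact hxv v hv huv
        by_cases hvx : v = x
        · subst hvx
          obtain ⟨L1, L2, h⟩ := hxv u hu huv.symm
          exact ⟨L1, L2, h.symm⟩
        obtain ⟨L1, L2, h⟩ := hpair u hu v hv huv hux hvx
        rcases h with h | h
        · obtain ⟨M1, M2, h'⟩ := ins x u v (har ▸ h) (hsep u v huv)
          exact ⟨M1, M2, Or.inl h'⟩
        · obtain ⟨M1, M2, h'⟩ := ins x v u (har ▸ h) (hsep v u huv.symm)
          exact ⟨M1, M2, Or.inr h'⟩
    by_cases hw : ∃ w ∈ X, F.Adj x w
    · obtain ⟨w, hwX, hxw⟩ := hw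
      have hwx : w ≠ x := hxw.ne'
      have huniq : ∀ v ∈ X, F.Adj x v → v = w := fun v hv h => hx1 v hv w hwX h hxw
      have hwL : w ∈ L := (hm w).2 (Finset.mem_erase.2 ⟨hwx, hwX⟩)
      obtain ⟨a, b, hab⟩ := List.append_of_mem hwL
      by_cases hlast : ∃ (a' : List W) (y : W), a = a' ++ [y] ∧ F.Adj y w
      · obtain ⟨a', y, ha', hyw⟩ := hlast
        refine key (a ++ [w]) b (by rw [hab]; simp) ?_ ?_
        · intro p q hpq c r' hc hr
          have hp : w = p := by
            have := List.append_inj_right' hc rfl
            simpa using this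
          subst hp
          -- `w` has the neighbours `x`, `y`, `q`
          have hyL : y ∈ L := by
            rw [hab, ha']
            simp
          have hqL : q ∈ L := by
            rw [hab, hr]
            simp
          have hyx : y ≠ x := fun h => hxL (h ▸ hyL)
          have hqx : q ≠ x := fun h => hxL (h ▸ hqL)
          have hyq : y ≠ q := by
            rintro rfl
            rw [hab, ha', hr] at hL
            simp [List.nodup_append] at hL
          rcases hd w x y q hxw.symm hyw.symm hpq with h | h | h
          · exact hyx h.symm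
          · exact hqx h.symm
          · exact hyq h
        · intro v hv hxv
          have := huniq v hv hxv
          subst this
          exact ⟨a, b, Or.inr (by simp)⟩
      · refine key a (w :: b) hab ?_ ?_
        · intro p q hpq c r' hc hr
          have hq : w = q := by
            have := (List.cons.inj hr).1
            exact this
          subst hq
          exact hlast ⟨c, p, hc, hpq⟩
        · intro v hv hxv
          have := huniq v hv hxv
          subst this
          exact ⟨a, b, Or.inl rfl⟩
    · refine key [] L rfl ?_ ?_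
      · intro p q _ a' r' h
        simp at h
      · intro v hv hxv
        exact (hw ⟨v, hv, hxv⟩).elim

theorem pf_lo : T_LO := by
  intro W _ _ F hd hA
  obtain ⟨L, hL, hm, hadj⟩ := main F hd hA _ Finset.univ rfl
  refine ⟨L, hL, fun w => (hm w).2 (Finset.mem_univ w), fun u v h =>
    hadj u (Finset.mem_univ u) v (Finset.mem_univ v) h⟩

end Pool.Agent.H42.S4
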